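import Pool.Agent.helper67NP.Main

/-!
Over every algebraically closed field `k` whose characteristic is not 2, 3 or 5 there is a smooth
complete non-projective threefold `X` with a maximal quasi-projective open subset `U` such that an
irreducible component of `X \ U` is a non-rational curve.

Varieties are given by their sets of local rings inside the function field (Zariski's models; library
module `Pool.Graph.R_seed8.D71.Defs`). The example is the one of the library's theorem for `k = ℂ`: let
`Z` be the `P^1`-bundle over `P^2` given by the two equations `x₀w₀ + x₁w₁ + x₂w₂ = 0`,
`Q₀w₀ + Q₁w₁ + C w₃ = 0` (in the product of `P^2` and `P^3`), whose projection to `P^3` contracts the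
curve `B` over the point `w = (0:0:0:1)`, the plane cubic `C = 0`; `X` arises from `Z` by one
modification (four further charts) over the point `w = (0:0:1:0)`. Its equations have integral
coefficients, and the construction is good at all primes except 2, 3, 5.
-/

namespace Pool.Agent.Results.MP_d71e86_ag.GoodCharacteristics

open D71

/-- Over every algebraically closed field `k` of characteristic `0` or `p ≥ 7` there are a smooth
complete non-projective threefold `X`, a maximal quasi-projective open subset `U` of `X`, and an
irreducible component of `X \ U`, with generic point `O`, which is a curve (its function field, the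
residue field of `O`, has transcendence degree `1`) and is not rational (its function field is not
isomorphic to `k(t)` over `k`). -/
theorem result (k : Type) [Field k] [IsAlgClosed k] (h : (30 : k) ≠ 0) :
    ∃ (K : Type) (_ : Field K) (_ : Algebra k K) (X : Set (Subalgebra k K)),
    IsThreefold X ∧ IsComplete X ∧ IsSmooth X ∧ ¬ IsProjective X ∧
    ∃ U : Set (Subalgebra k K), IsMaxQPOpen X U ∧
      ∃ (O : Subalgebra k K) (_ : IsLocalRing O), IsGenericPtOfComponent X U O ∧
        Algebra.trdeg k (IsLocalRing.ResidueField O) = 1 ∧
        IsEmpty (IsLocalRing.ResidueField O ≃ₐ[k] RatFunc k) :=
  Pool.Agent.H67NP.everyField k h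

end Pool.Agent.Results.MP_d71e86_ag.GoodCharacteristics
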